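import Pool.Agent.G2G.Defs

/-! MODULE A1 (diff 1-2): identities of the cross product of `ℝ⁷`, in coordinates.

`cross_apply : cross u v = crossF u v`, `crossF_0 … crossF_6` (components `cr0 … cr6`); the inner product of `E7` is the
sum of the 7 products (prove a lemma `A1_inner` as `inner4` in `Cross.lean`).  `ext i; fin_cases i`, `change`, `simp only
[cr0, ..]`, `ring`.  `cross_cross` is a polynomial identity of degree 3 in each component. -/

namespace G2G

open HFinG HG G2F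
open scoped ContDiff RealInnerProductSpace

set_option linter.unusedSimpArgs false

lemma A1_inner (u v : E7) :
    ⟪u, v⟫ = u 0 * v 0 + u 1 * v 1 + u 2 * v 2 + u 3 * v 3 + u 4 * v 4 + u 5 * v 5 + u 6 * v 6 := by
  rw [PiLp.inner_apply]
  simp only [Fin.sum_univ_succ, Fin.sum_univ_zero]
  change v 0 * u 0 + (v 1 * u 1 + (v 2 * u 2 + (v 3 * u 3 + (v 4 * u 4 + (v 5 * u 5 +
    (v 6 * u 6 + 0)))))) = _
  ring

theorem crossF_add_left (u u' v : E7) : crossF (u + u') v = crossF u v + crossF u' v := by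
  have h := map_add cross u u'
  have h2 := congrArg (fun L : E7 →L[ℝ] E7 => L v) h
  exact h2

theorem crossF_add_right (u v v' : E7) : crossF u (v + v') = crossF u v + crossF u v' :=
  map_add (cross u) v v'

theorem crossF_smul_left (c : ℝ) (u v : E7) : crossF (c • u) v = c • crossF u v := by
  have h := map_smul cross c u
  have h2 := congrArg (fun L : E7 →L[ℝ] E7 => L v) h
  exact h2

theorem crossF_smul_right (c : ℝ) (u v : E7) : crossF u (c • v) = c • crossF u v :=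
  map_smul (cross u) c v

theorem crossF_anti (u v : E7) : crossF u v = -crossF v u := by
  ext i
  fin_cases i
  · change cr0 u v = -cr0 v u
    simp only [cr0]
    ring
  · change cr1 u v = -cr1 v u
    simp only [cr1]
    ring
  · change cr2 u v = -cr2 v u
    simp only [cr2]
    ring
  · change cr3 u v = -cr3 v u
    simp only [cr3]
    ring
  · change cr4 u v = -cr4 v u
    simp only [cr4]
    ring
  · change cr5 u v = -cr5 v u
    simp only [cr5]
    ring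
  · change cr6 u v = -cr6 v u
    simp only [cr6]
    ring

theorem crossF_skew (u v w : E7) : ⟪crossF u v, w⟫ = -⟪v, crossF u w⟫ := by
  rw [A1_inner, A1_inner]
  simp only [crossF_0, crossF_1, crossF_2, crossF_3, crossF_4, crossF_5, crossF_6, cr0, cr1, cr2,
    cr3, cr4, cr5, cr6]
  ring

theorem cross_cross (u v : E7) :
    crossF u (crossF u v) = ⟪u, v⟫ • u - ⟪u, u⟫ • v := by
  rw [A1_inner, A1_inner]
  ext i
  fin_cases i
  · change cr0 u (crossF u v) =
      (u 0 * v 0 + u 1 * v 1 + u 2 * v 2 + u 3 * v 3 + u 4 * v 4 + u 5 * v 5 + u 6 * v 6) * u 0 -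
      (u 0 * u 0 + u 1 * u 1 + u 2 * u 2 + u 3 * u 3 + u 4 * u 4 + u 5 * u 5 + u 6 * u 6) * v 0
    simp only [cr0, crossF_0, crossF_1, crossF_2, crossF_3, crossF_4, crossF_5, crossF_6]
    simp only [cr0, cr1, cr2, cr3, cr4, cr5, cr6]
    ring
  · change cr1 u (crossF u v) =
      (u 0 * v 0 + u 1 * v 1 + u 2 * v 2 + u 3 * v 3 + u 4 * v 4 + u 5 * v 5 + u 6 * v 6) * u 1 -
      (u 0 * u 0 + u 1 * u 1 + u 2 * u 2 + u 3 * u 3 + u 4 * u 4 + u 5 * u 5 + u 6 * u 6) * v 1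
    simp only [cr1, crossF_0, crossF_1, crossF_2, crossF_3, crossF_4, crossF_5, crossF_6]
    simp only [cr0, cr1, cr2, cr3, cr4, cr5, cr6]
    ring
  · change cr2 u (crossF u v) =
      (u 0 * v 0 + u 1 * v 1 + u 2 * v 2 + u 3 * v 3 + u 4 * v 4 + u 5 * v 5 + u 6 * v 6) * u 2 -
      (u 0 * u 0 + u 1 * u 1 + u 2 * u 2 + u 3 * u 3 + u 4 * u 4 + u 5 * u 5 + u 6 * u 6) * v 2
    simp only [cr2, crossF_0, crossF_1, crossF_2, crossF_3, crossF_4, crossF_5, crossF_6]
    simp only [cr0, cr1, cr2, cr3, cr4, cr5, cr6]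
    ring
  · change cr3 u (crossF u v) =
      (u 0 * v 0 + u 1 * v 1 + u 2 * v 2 + u 3 * v 3 + u 4 * v 4 + u 5 * v 5 + u 6 * v 6) * u 3 -
      (u 0 * u 0 + u 1 * u 1 + u 2 * u 2 + u 3 * u 3 + u 4 * u 4 + u 5 * u 5 + u 6 * u 6) * v 3
    simp only [cr3, crossF_0, crossF_1, crossF_2, crossF_3, crossF_4, crossF_5, crossF_6]
    simp only [cr0, cr1, cr2, cr3, cr4, cr5, cr6]
    ring
  · change cr4 u (crossF u v) =
      (u 0 * v 0 + u 1 * v 1 + u 2 * v 2 + u 3 * v 3 + u 4 * v 4 + u 5 * v 5 + u 6 * v 6) * u 4 -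
      (u 0 * u 0 + u 1 * u 1 + u 2 * u 2 + u 3 * u 3 + u 4 * u 4 + u 5 * u 5 + u 6 * u 6) * v 4
    simp only [cr4, crossF_0, crossF_1, crossF_2, crossF_3, crossF_4, crossF_5, crossF_6]
    simp only [cr0, cr1, cr2, cr3, cr4, cr5, cr6]
    ring
  · change cr5 u (crossF u v) =
      (u 0 * v 0 + u 1 * v 1 + u 2 * v 2 + u 3 * v 3 + u 4 * v 4 + u 5 * v 5 + u 6 * v 6) * u 5 -
      (u 0 * u 0 + u 1 * u 1 + u 2 * u 2 + u 3 * u 3 + u 4 * u 4 + u 5 * u 5 + u 6 * u 6) * v 5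
    simp only [cr5, crossF_0, crossF_1, crossF_2, crossF_3, crossF_4, crossF_5, crossF_6]
    simp only [cr0, cr1, cr2, cr3, cr4, cr5, cr6]
    ring
  · change cr6 u (crossF u v) =
      (u 0 * v 0 + u 1 * v 1 + u 2 * v 2 + u 3 * v 3 + u 4 * v 4 + u 5 * v 5 + u 6 * v 6) * u 6 -
      (u 0 * u 0 + u 1 * u 1 + u 2 * u 2 + u 3 * u 3 + u 4 * u 4 + u 5 * u 5 + u 6 * u 6) * v 6
    simp only [cr6, crossF_0, crossF_1, crossF_2, crossF_3, crossF_4, crossF_5, crossF_6]
    simp only [cr0, cr1, cr2, cr3, cr4, cr5, cr6]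
    ring

/-- polarisation of `cross_cross` -/
theorem cross_cross' (u u' v : E7) :
    crossF u (crossF u' v) + crossF u' (crossF u v) =
      ⟪u, v⟫ • u' + ⟪u', v⟫ • u - (2 * ⟪u, u'⟫) • v := by
  have h := cross_cross (u + u') v
  have h1 := cross_cross u v
  have h2 := cross_cross u' v
  rw [crossF_add_left u u' v, crossF_add_left, crossF_add_right, crossF_add_right, h1, h2] at h
  have h3 : ⟪u + u', v⟫ = ⟪u, v⟫ + ⟪u', v⟫ := inner_add_left _ _ _
  have h4 : ⟪u + u', u + u'⟫ = ⟪u, u⟫ + 2 * ⟪u, u'⟫ + ⟪u', u'⟫ := real_inner_add_add_self _ _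
  rw [h3, h4] at h
  have h5 : crossF u (crossF u' v) + crossF u' (crossF u v) =
      (⟪u, v⟫ + ⟪u', v⟫) • (u + u') - (⟪u, u⟫ + 2 * ⟪u, u'⟫ + ⟪u', u'⟫) • v -
      (⟪u, v⟫ • u - ⟪u, u⟫ • v) - (⟪u', v⟫ • u' - ⟪u', u'⟫ • v) := by
    rw [← h]; abel
  rw [h5]
  module

end G2G
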