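import Pool.Agent.G2G.A1

/-! MODULE A2 (diff 2): the group `G₂`; `exp` of a skew derivation is in `G₂`.

* `gg_inv`: `g ∈ GG` is injective (isometry), so bijective (finite dimension); the inverse
  (`LinearEquiv.ofInjectiveEndo`, `ContinuousLinearEquiv`) preserves the inner product and the cross product.
* `exp_mem`: `S` skew with `S (u × v) = S u × v + u × S v`.  For fixed `u, v` the curve
  `c t = exp (-t S) (crossF (exp (t S) u) (exp (t S) v))` has derivative `0` (`exp_hasDerivAt`, `exp_hasDerivAt'` of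
  `HG/A1.lean` in the algebra `E7 →L[ℝ] E7`; `crossF` is the continuous bilinear map `cross`,
  `HasDerivAt` of bilinear maps: `ContinuousLinearMap.hasFDerivAt_of_bilinear`, or use
  `IsBoundedBilinearMap`), so `c 1 = c 0 = crossF u v` (`HG.ode_const`); apply `exp S` (`HG.exp_mul_neg`).
  Same for `t ↦ ⟪exp (t S) u, exp (t S) v⟫` (real valued).
* `sec_mem`, `hexp_mem`: with `iota_skew`, `iota_der`, `hat_skew`, `hat_der` of `G2F/Cross.lean`.
-/

namespace G2G

open HFinG HG G2F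
open scoped ContDiff RealInnerProductSpace

theorem gg_one : (1 : E7 →L[ℝ] E7) ∈ GG :=
  ⟨fun _ _ => rfl, fun _ _ => rfl⟩

theorem gg_mul {g h : E7 →L[ℝ] E7} (hg : g ∈ GG) (hh : h ∈ GG) : g * h ∈ GG := by
  refine ⟨fun u v => ?_, fun u v => ?_⟩
  · change ⟪g (h u), g (h v)⟫ = ⟪u, v⟫
    rw [hg.1, hh.1]
  · change g (h (crossF u v)) = crossF (g (h u)) (g (h v))
    rw [hh.2, hg.2]

theorem gg_inv {g : E7 →L[ℝ] E7} (hg : g ∈ GG) : ∃ g' ∈ GG, g * g' = 1 ∧ g' * g = 1 := by
  have hinj : Function.Injective (g : E7 →ₗ[ℝ] E7) := by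
    rw [← LinearMap.ker_eq_bot, LinearMap.ker_eq_bot']
    intro u hu
    have h1 := hg.1 u u
    have h2 : g u = 0 := hu
    rw [h2, inner_zero_left] at h1
    exact inner_self_eq_zero.1 h1.symm
  let e : E7 ≃ₗ[ℝ] E7 := LinearEquiv.ofInjectiveEndo (g : E7 →ₗ[ℝ] E7) hinj
  have he : ∀ u, e u = g u := fun u => rfl
  let g' : E7 →L[ℝ] E7 := LinearMap.toContinuousLinearMap (e.symm : E7 →ₗ[ℝ] E7)
  have hg' : ∀ u, g' u = e.symm u := fun u => rfl
  have h1 : ∀ u, g (g' u) = u := by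
    intro u
    rw [hg', ← he, LinearEquiv.apply_symm_apply]
  have h2 : ∀ u, g' (g u) = u := by
    intro u
    rw [hg', ← he, LinearEquiv.symm_apply_apply]
  refine ⟨g', ⟨fun u v => ?_, fun u v => ?_⟩, ?_, ?_⟩
  · rw [← hg.1, h1, h1]
  · have h3 : g' (g (crossF (g' u) (g' v))) = crossF (g' u) (g' v) := h2 _
    rw [hg.2, h1, h1] at h3
    exact h3
  · ext1 u
    exact h1 u
  · ext1 u
    exact h2 u

theorem A2_app (S : E7 →L[ℝ] E7) (u : E7) (t : ℝ) :
    HasDerivAt (fun t : ℝ => NormedSpace.exp (t • S) u) (S (NormedSpace.exp (t • S) u)) t := by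
  have h1 := (exp_hasDerivAt' S t).clm_apply (hasDerivAt_const t u)
  have h2 : (S * NormedSpace.exp (t • S)) u + NormedSpace.exp (t • S) 0
      = S (NormedSpace.exp (t • S) u) := by
    rw [map_zero, add_zero]
    rfl
  exact h2 ▸ h1

theorem A2_z (S : E7 →L[ℝ] E7) : (0 : ℝ) • S = 0 := zero_smul ℝ S
theorem A2_o (S : E7 →L[ℝ] E7) : (1 : ℝ) • S = S := one_smul ℝ S
theorem A2_m (S : E7 →L[ℝ] E7) : (-1 : ℝ) • S = -S :=
  (neg_smul (1 : ℝ) S).trans (congrArg Neg.neg (one_smul ℝ S))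

theorem A2_neg (S : E7 →L[ℝ] E7) (t : ℝ) :
    HasDerivAt (fun t : ℝ => NormedSpace.exp ((-t) • S)) (-(NormedSpace.exp ((-t) • S) * S)) t := by
  have h1 := (exp_hasDerivAt S (-t)).scomp t (hasDerivAt_neg t)
  have h2 : (-1 : ℝ) • (NormedSpace.exp ((-t) • S) * S) = -(NormedSpace.exp ((-t) • S) * S) := by
    exact A2_m _
  rw [h2] at h1
  exact h1

/-- a curve with `f' = S f` is `exp (t S) f 0`, at `t = 1` -/
theorem A2_ode (S : E7 →L[ℝ] E7) (f : ℝ → E7) (hf : ∀ t, HasDerivAt f (S (f t)) t) :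
    f 1 = NormedSpace.exp S (f 0) := by
  have h1 : ∀ t, HasDerivAt (fun t : ℝ => NormedSpace.exp ((-t) • S) (f t)) 0 t := by
    intro t
    have h2 := (A2_neg S t).clm_apply (hf t)
    have h3 : (-(NormedSpace.exp ((-t) • S) * S)) (f t) + NormedSpace.exp ((-t) • S) (S (f t))
        = 0 := by
      change -(NormedSpace.exp ((-t) • S) (S (f t))) + NormedSpace.exp ((-t) • S) (S (f t)) = 0
      exact neg_add_cancel _
    exact h3 ▸ h2
  have h4 := ode_const h1 1 0
  have h5 : NormedSpace.exp (-S) (f 1) = f 0 := by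
    have h6 : NormedSpace.exp ((-(1 : ℝ)) • S) (f 1) = NormedSpace.exp ((-(0 : ℝ)) • S) (f 0) := h4
    rw [neg_zero, A2_z, NormedSpace.exp_zero, A2_m] at h6
    exact h6
  rw [← h5]
  have h7 : (NormedSpace.exp S * NormedSpace.exp (-S)) (f 1) = f 1 := by
    rw [exp_mul_neg]
    rfl
  exact h7.symm

theorem exp_mem {S : E7 →L[ℝ] E7} (h1 : ∀ u v, ⟪S u, v⟫ = -⟪u, S v⟫)
    (h2 : ∀ u v, S (crossF u v) = crossF (S u) v + crossF u (S v)) : NormedSpace.exp S ∈ GG := by
  refine ⟨fun u v => ?_, fun u v => ?_⟩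
  · have h3 : ∀ t : ℝ, HasDerivAt
        (fun t : ℝ => ⟪NormedSpace.exp (t • S) u, NormedSpace.exp (t • S) v⟫) 0 t := by
      intro t
      have h4 := (A2_app S u t).inner ℝ (A2_app S v t)
      have h5 : ⟪NormedSpace.exp (t • S) u, S (NormedSpace.exp (t • S) v)⟫
          + ⟪S (NormedSpace.exp (t • S) u), NormedSpace.exp (t • S) v⟫ = 0 := by
        rw [h1]
        ring
      exact h5 ▸ h4
    have h6 := ode_const h3 1 0
    have h7 : ⟪NormedSpace.exp ((1 : ℝ) • S) u, NormedSpace.exp ((1 : ℝ) • S) v⟫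
        = ⟪NormedSpace.exp ((0 : ℝ) • S) u, NormedSpace.exp ((0 : ℝ) • S) v⟫ := h6
    rw [A2_o, A2_z, NormedSpace.exp_zero] at h7
    exact h7
  · have h3 : ∀ t : ℝ, HasDerivAt
        (fun t : ℝ => cross (NormedSpace.exp (t • S) u) (NormedSpace.exp (t • S) v))
        (S (cross (NormedSpace.exp (t • S) u) (NormedSpace.exp (t • S) v))) t := by
      intro t
      have h4 := (cross.hasFDerivAt.comp_hasDerivAt t (A2_app S u t)).clm_apply (A2_app S v t)
      have h5 : cross (S (NormedSpace.exp (t • S) u)) (NormedSpace.exp (t • S) v)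
          + cross (NormedSpace.exp (t • S) u) (S (NormedSpace.exp (t • S) v))
          = S (cross (NormedSpace.exp (t • S) u) (NormedSpace.exp (t • S) v)) := by
        rw [G2F.cross_apply, G2F.cross_apply, G2F.cross_apply, h2]
      exact h5 ▸ h4
    have h6 := A2_ode S _ h3
    have h7 : cross (NormedSpace.exp ((1 : ℝ) • S) u) (NormedSpace.exp ((1 : ℝ) • S) v)
        = NormedSpace.exp S
          (cross (NormedSpace.exp ((0 : ℝ) • S) u) (NormedSpace.exp ((0 : ℝ) • S) v)) := h6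
    rw [A2_o, A2_z, NormedSpace.exp_zero] at h7
    exact h7.symm

theorem sec_mem (v : V11) : matG.sec v ∈ GG := by
  refine exp_mem (fun u w => ?_) (fun u w => ?_)
  · exact iota_skew v u w
  · exact iota_der v u w

end G2G
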