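import Pool.Agent.G2G.A2

/-! MODULE A3 (diff 3): `G₂` is transitive on orthonormal pairs (Cayley-Dickson basis lemma).

Let `x, y` be orthonormal, `z = x × y`, and let `w` be a unit vector orthogonal to `x, y, z` (exists since
`7 > 3`).  Put `b₀ = x, b₁ = y, b₂ = z, b₃ = w, b₄ = x × w, b₅ = y × w, b₆ = z × w`.  Then `(b_i)` is orthonormal and
`b_i × b_j` is given by the same table as `e_i × e_j` (`e₄ = iℓ = e₀ × e₃` etc.: check with `crossF`).
For pairwise orthogonal `u, v, w`: `u × (v × w) = -(u × v) × w` (`cross_cross'`).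
-/

namespace G2G

open HFinG HG G2F
open scoped ContDiff RealInnerProductSpace

lemma A3_neg_right (u v : E7) : crossF u (-v) = -crossF u v := map_neg (cross u) v

lemma A3_neg_left (u v : E7) : crossF (-u) v = -crossF u v := by
  rw [crossF_anti (-u) v, A3_neg_right, neg_neg, crossF_anti v u]

lemma A3_self (u : E7) : crossF u u = 0 := by
  have h := crossF_anti u u
  have h2 : (2 : ℝ) • crossF u u = 0 := by
    rw [two_smul]
    nth_rewrite 1 [h]
    exact neg_add_cancel _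
  rcases smul_eq_zero.1 h2 with h3 | h3
  · norm_num at h3
  · exact h3

lemma A3_cc0 {u v : E7} (h : ⟪u, v⟫ = 0) (hu : ⟪u, u⟫ = 1) : crossF u (crossF u v) = -v := by
  rw [cross_cross, h, hu]; simp

lemma A3_cc1 {u v : E7} (h : ⟪u, v⟫ = 0) (hu : ⟪u, u⟫ = 1) : crossF u (crossF v u) = v := by
  rw [crossF_anti v u, A3_neg_right, A3_cc0 h hu, neg_neg]

lemma A3_cyc {u v w : E7} (h1 : ⟪u, v⟫ = 0) (h2 : ⟪u, w⟫ = 0) (h3 : ⟪v, w⟫ = 0) :
    crossF u (crossF v w) = -crossF (crossF u v) w := by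
  have h3' : ⟪w, v⟫ = 0 := by rw [real_inner_comm]; exact h3
  have h := cross_cross' u w v
  rw [h1, h2, h3'] at h
  have h4 : crossF u (crossF w v) = -crossF w (crossF u v) := by
    apply eq_neg_of_add_eq_zero_left
    rw [h]; simp
  rw [crossF_anti v w, A3_neg_right, h4, neg_neg, crossF_anti w]

lemma A3_in1 (u v : E7) : ⟪crossF u v, u⟫ = 0 := by
  rw [crossF_skew, A3_self, inner_zero_right, neg_zero]

lemma A3_in2 (u v : E7) : ⟪crossF u v, v⟫ = 0 := by
  rw [crossF_anti, inner_neg_left, A3_in1, neg_zero]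

lemma A3_inc (u v w : E7) : ⟪crossF u v, crossF u w⟫ = ⟪u, u⟫ * ⟪v, w⟫ - ⟪u, v⟫ * ⟪u, w⟫ := by
  rw [crossF_skew, cross_cross, inner_sub_right, real_inner_smul_right, real_inner_smul_right,
    real_inner_comm u v]
  ring

lemma A3_inc' (u v w : E7) : ⟪crossF v u, crossF w u⟫ = ⟪u, u⟫ * ⟪v, w⟫ - ⟪u, v⟫ * ⟪u, w⟫ := by
  rw [crossF_anti v u, crossF_anti w u, inner_neg_neg, A3_inc]

lemma A3_exists (x y z : E7) : ∃ w : E7, ⟪x, w⟫ = 0 ∧ ⟪y, w⟫ = 0 ∧ ⟪z, w⟫ = 0 ∧ ⟪w, w⟫ = 1 := by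
  set K : Submodule ℝ E7 := Submodule.span ℝ (Set.range ![x, y, z]) with hK
  have h1 : Module.finrank ℝ K ≤ 3 := by
    have h := finrank_range_le_card (R := ℝ) ![x, y, z]
    rw [Fintype.card_fin] at h
    exact h
  have h2 := K.finrank_add_finrank_orthogonal
  have h3 : Module.finrank ℝ E7 = 7 := by simp [E7]
  rw [h3] at h2
  have h4 : Kᗮ ≠ ⊥ := by
    intro h
    rw [h, finrank_bot] at h2
    omega
  obtain ⟨v, hv, hv0⟩ := Submodule.exists_mem_ne_zero_of_ne_bot h4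
  have hm : ∀ i, (![x, y, z] : Fin 3 → E7) i ∈ K := fun i => Submodule.subset_span ⟨i, rfl⟩
  have hxv : ⟪x, v⟫ = 0 := Submodule.inner_right_of_mem_orthogonal (hm 0) hv
  have hyv : ⟪y, v⟫ = 0 := Submodule.inner_right_of_mem_orthogonal (hm 1) hv
  have hzv : ⟪z, v⟫ = 0 := Submodule.inner_right_of_mem_orthogonal (hm 2) hv
  have hn : ‖v‖ ≠ 0 := norm_ne_zero_iff.2 hv0
  refine ⟨‖v‖⁻¹ • v, ?_, ?_, ?_, ?_⟩
  · rw [real_inner_smul_right, hxv, mul_zero]
  · rw [real_inner_smul_right, hyv, mul_zero]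
  · rw [real_inner_smul_right, hzv, mul_zero]
  · rw [real_inner_smul_right, real_inner_smul_left, real_inner_self_eq_norm_sq]
    field_simp

/-- The map with matrix columns `b₀, …, b₆`. -/
noncomputable def A3_g (b0 b1 b2 b3 b4 b5 b6 : E7) : E7 →L[ℝ] E7 :=
  LinearMap.toContinuousLinearMap
    { toFun := fun u => u 0 • b0 + u 1 • b1 + u 2 • b2 + u 3 • b3 + u 4 • b4 + u 5 • b5 + u 6 • b6
      map_add' := by
        intro u v
        simp only [PiLp.add_apply]
        module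
      map_smul' := by
        intro c u
        simp only [PiLp.smul_apply, smul_eq_mul, RingHom.id_apply]
        module }

lemma A3_g_apply (b0 b1 b2 b3 b4 b5 b6 u : E7) : A3_g b0 b1 b2 b3 b4 b5 b6 u =
    u 0 • b0 + u 1 • b1 + u 2 • b2 + u 3 • b3 + u 4 • b4 + u 5 • b5 + u 6 • b6 := rfl

theorem gg_trans {x y : E7} (hx : ‖x‖ = 1) (hy : ‖y‖ = 1) (hxy : ⟪x, y⟫ = 0) :
    ∃ g ∈ GG, g e0 = x ∧ g e1 = y := by
  have n0 : ⟪x, x⟫ = 1 := by rw [real_inner_self_eq_norm_sq, hx]; norm_num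
  have n1 : ⟪y, y⟫ = 1 := by rw [real_inner_self_eq_norm_sq, hy]; norm_num
  have hyx : ⟪y, x⟫ = 0 := by rw [real_inner_comm]; exact hxy
  set z := crossF x y with hz
  obtain ⟨w, hxw, hyw, hzw, n3⟩ := A3_exists x y z
  have hwx : ⟪w, x⟫ = 0 := by rw [real_inner_comm]; exact hxw
  have hwy : ⟪w, y⟫ = 0 := by rw [real_inner_comm]; exact hyw
  have hwz : ⟪w, z⟫ = 0 := by rw [real_inner_comm]; exact hzw
  have hzx : ⟪z, x⟫ = 0 := A3_in1 x y
  have hzy : ⟪z, y⟫ = 0 := A3_in2 x y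
  have hxz : ⟪x, z⟫ = 0 := by rw [real_inner_comm]; exact hzx
  have hyz : ⟪y, z⟫ = 0 := by rw [real_inner_comm]; exact hzy
  have n2 : ⟪z, z⟫ = 1 := by rw [hz, A3_inc, n0, n1, hxy]; ring
  -- table of products
  have t02 : crossF x z = -y := A3_cc0 hxy n0
  have t12 : crossF y z = x := A3_cc1 hyx n1
  have t20 : crossF z x = y := by rw [crossF_anti, t02, neg_neg]
  have t21 : crossF z y = -x := by rw [crossF_anti, t12]
  have t10 : crossF y x = -z := by rw [crossF_anti]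
  set P := crossF x w with hP
  set Q := crossF y w with hQ
  set S := crossF z w with hS
  have t04 : crossF x P = -w := A3_cc0 hxw n0
  have t15 : crossF y Q = -w := A3_cc0 hyw n1
  have t26 : crossF z S = -w := A3_cc0 hzw n2
  have t34 : crossF w P = x := A3_cc1 hwx n3
  have t35 : crossF w Q = y := A3_cc1 hwy n3
  have t36 : crossF w S = z := A3_cc1 hwz n3
  have t43 : crossF P w = -x := by rw [crossF_anti, t34]
  have t53 : crossF Q w = -y := by rw [crossF_anti, t35]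
  have t63 : crossF S w = -z := by rw [crossF_anti, t36]
  have t05 : crossF x Q = -S := A3_cyc hxy hxw hyw
  have t06 : crossF x S = Q := by
    rw [hS, A3_cyc hxz hxw hzw, t02, A3_neg_left, neg_neg]
  have t14 : crossF y P = S := by
    rw [hP, A3_cyc hyx hyw hxw, t10, A3_neg_left, neg_neg]
  have t16 : crossF y S = -P := by
    rw [hS, A3_cyc hyz hyw hzw, t12]
  have t24 : crossF z P = -Q := by
    rw [hP, A3_cyc hzx hzw hxw, t20]
  have t25 : crossF z Q = P := by
    rw [hQ, A3_cyc hzy hzw hyw, t21, A3_neg_left, neg_neg]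
  -- inner products
  have hPx : ⟪P, x⟫ = 0 := A3_in1 x w
  have hPw : ⟪P, w⟫ = 0 := A3_in2 x w
  have hQy : ⟪Q, y⟫ = 0 := A3_in1 y w
  have hQw : ⟪Q, w⟫ = 0 := A3_in2 y w
  have hSz : ⟪S, z⟫ = 0 := A3_in1 z w
  have hSw : ⟪S, w⟫ = 0 := A3_in2 z w
  have hPy : ⟪P, y⟫ = 0 := by rw [hP, crossF_skew, ← hz, hwz, neg_zero]
  have hPz : ⟪P, z⟫ = 0 := by rw [hP, crossF_skew, t02, inner_neg_right, hwy, neg_zero, neg_zero]
  have hQx : ⟪Q, x⟫ = 0 := by rw [hQ, crossF_skew, t10, inner_neg_right, hwz, neg_zero, neg_zero]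
  have hQz : ⟪Q, z⟫ = 0 := by rw [hQ, crossF_skew, t12, hwx, neg_zero]
  have hSx : ⟪S, x⟫ = 0 := by rw [hS, crossF_skew, t20, hwy, neg_zero]
  have hSy : ⟪S, y⟫ = 0 := by rw [hS, crossF_skew, t21, inner_neg_right, hwx, neg_zero, neg_zero]
  have hPQ : ⟪P, Q⟫ = 0 := by rw [hP, hQ, A3_inc', n3, hxy, hwx]; ring
  have hPS : ⟪P, S⟫ = 0 := by rw [hP, hS, A3_inc', n3, hxz, hwx]; ring
  have hQS : ⟪Q, S⟫ = 0 := by rw [hQ, hS, A3_inc', n3, hyz, hwy]; ring
  have n4 : ⟪P, P⟫ = 1 := by rw [hP, A3_inc', n3, n0, hwx]; ring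
  have n5 : ⟪Q, Q⟫ = 1 := by rw [hQ, A3_inc', n3, n1, hwy]; ring
  have n6 : ⟪S, S⟫ = 1 := by rw [hS, A3_inc', n3, n2, hwz]; ring
  have t45 : crossF P Q = -z := by
    have : crossF P Q = -crossF (crossF P y) w := A3_cyc hPy hPw hyw
    rw [this, crossF_anti P y, t14, A3_neg_left, neg_neg, t63]
  have t46 : crossF P S = y := by
    have : crossF P S = -crossF (crossF P z) w := A3_cyc hPz hPw hzw
    rw [this, crossF_anti P z, t24, neg_neg, t53, neg_neg]
  have t56 : crossF Q S = -x := by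
    have : crossF Q S = -crossF (crossF Q z) w := A3_cyc hQz hQw hzw
    rw [this, crossF_anti Q z, t25, A3_neg_left, neg_neg, t43]
  -- transposed products
  have t30 : crossF w x = -P := by rw [crossF_anti]
  have t31 : crossF w y = -Q := by rw [crossF_anti]
  have t32 : crossF w z = -S := by rw [crossF_anti]
  have t40 : crossF P x = w := by rw [crossF_anti, t04, neg_neg]
  have t51 : crossF Q y = w := by rw [crossF_anti, t15, neg_neg]
  have t62 : crossF S z = w := by rw [crossF_anti, t26, neg_neg]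
  have t50 : crossF Q x = S := by rw [crossF_anti, t05, neg_neg]
  have t60 : crossF S x = -Q := by rw [crossF_anti, t06]
  have t41 : crossF P y = -S := by rw [crossF_anti, t14]
  have t61 : crossF S y = P := by rw [crossF_anti, t16, neg_neg]
  have t42 : crossF P z = Q := by rw [crossF_anti, t24, neg_neg]
  have t52 : crossF Q z = -P := by rw [crossF_anti, t25]
  have t54 : crossF Q P = z := by rw [crossF_anti, t45, neg_neg]
  have t64 : crossF S P = -y := by rw [crossF_anti, t46]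
  have t65 : crossF S Q = x := by rw [crossF_anti, t56, neg_neg]
  have t01 : crossF x y = z := rfl
  have t03 : crossF x w = P := rfl
  have t13 : crossF y w = Q := rfl
  have t23 : crossF z w = S := rfl
  have i1 : ⟪x, P⟫ = 0 := by rw [real_inner_comm]; exact hPx
  have i2 : ⟪w, P⟫ = 0 := by rw [real_inner_comm]; exact hPw
  have i3 : ⟪y, Q⟫ = 0 := by rw [real_inner_comm]; exact hQy
  have i4 : ⟪w, Q⟫ = 0 := by rw [real_inner_comm]; exact hQw
  have i5 : ⟪z, S⟫ = 0 := by rw [real_inner_comm]; exact hSz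
  have i6 : ⟪w, S⟫ = 0 := by rw [real_inner_comm]; exact hSw
  have i7 : ⟪y, P⟫ = 0 := by rw [real_inner_comm]; exact hPy
  have i8 : ⟪z, P⟫ = 0 := by rw [real_inner_comm]; exact hPz
  have i9 : ⟪x, Q⟫ = 0 := by rw [real_inner_comm]; exact hQx
  have i10 : ⟪z, Q⟫ = 0 := by rw [real_inner_comm]; exact hQz
  have i11 : ⟪x, S⟫ = 0 := by rw [real_inner_comm]; exact hSx
  have i12 : ⟪y, S⟫ = 0 := by rw [real_inner_comm]; exact hSy
  have i13 : ⟪Q, P⟫ = 0 := by rw [real_inner_comm]; exact hPQ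
  have i14 : ⟪S, P⟫ = 0 := by rw [real_inner_comm]; exact hPS
  have i15 : ⟪S, Q⟫ = 0 := by rw [real_inner_comm]; exact hQS
  clear_value P Q S z
  refine ⟨A3_g x y z w P Q S, ⟨fun u v => ?_, fun u v => ?_⟩, ?_, ?_⟩
  · rw [A3_g_apply, A3_g_apply, A1_inner u v]
    simp only [inner_add_left, inner_add_right, real_inner_smul_left, real_inner_smul_right,
      n0, n1, n2, n3, n4, n5, n6, hxy, hyx, hxz, hzx, hyz, hzy, hxw, hwx, hyw, hwy, hzw, hwz,
      hPx, hPw, hQy, hQw, hSz, hSw, hPy, hPz, hQx, hQz, hSx, hSy, hPQ, hPS, hQS,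
      i1, i2, i3, i4, i5, i6, i7, i8, i9, i10, i11, i12, i13, i14, i15]
    ring
  · simp only [A3_g_apply, crossF_0, crossF_1, crossF_2, crossF_3, crossF_4, crossF_5, crossF_6,
      cr0, cr1, cr2, cr3, cr4, cr5, cr6]
    simp only [crossF_add_left, crossF_add_right, crossF_smul_left, crossF_smul_right, A3_self,
      t01, t02, t03, t04, t05, t06, t10, t12, t13, t14, t15, t16, t20, t21, t23, t24, t25, t26,
      t30, t31, t32, t34, t35, t36, t40, t41, t42, t43, t45, t46, t50, t51, t52, t53, t54, t56,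
      t60, t61, t62, t63, t64, t65]
    module
  · rw [A3_g_apply]
    simp [e0]
  · rw [A3_g_apply]
    simp [e1]

end G2G
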