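import Pool.Agent.G2G.A2

/-! MODULE A4 (diff 2): the stabilizer of `(e₀, e₁)` in `G₂` is `{diag(1, L_q) : |q| = 1}`. -/

namespace G2G

open HFinG HG G2F
open scoped ContDiff RealInnerProductSpace

set_option linter.unusedSimpArgs false

/-- the basis vectors -/
noncomputable def A4b (i : Fin 7) : E7 := EuclideanSpace.single i 1

lemma A4b_apply (i j : Fin 7) : A4b i j = if j = i then 1 else 0 := by
  simp [A4b]

lemma A4b_same (i : Fin 7) : A4b i i = 1 := by
  rw [A4b_apply, if_pos rfl]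

lemma A4b_ne {i j : Fin 7} (h : j ≠ i) : A4b i j = 0 := by
  rw [A4b_apply, if_neg h]

lemma A4_e0 : (e0 : E7) = A4b 0 := rfl
lemma A4_e1 : (e1 : E7) = A4b 1 := rfl

lemma A4_inner (u : E7) (i : Fin 7) : ⟪u, A4b i⟫ = u i := by
  rw [inner7]
  fin_cases i <;> simp [A4b_apply]

lemma A4_cross01 : crossF (A4b 0) (A4b 1) = A4b 2 := by
  ext i
  fin_cases i
  · change cr0 _ _ = _; simp [cr0, A4b_apply]
  · change cr1 _ _ = _; simp [cr1, A4b_apply]
  · change cr2 _ _ = _; simp [cr2, A4b_apply]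
  · change cr3 _ _ = _; simp [cr3, A4b_apply]
  · change cr4 _ _ = _; simp [cr4, A4b_apply]
  · change cr5 _ _ = _; simp [cr5, A4b_apply]
  · change cr6 _ _ = _; simp [cr6, A4b_apply]

lemma A4_cross03 : crossF (A4b 0) (A4b 3) = A4b 4 := by
  ext i
  fin_cases i
  · change cr0 _ _ = _; simp [cr0, A4b_apply]
  · change cr1 _ _ = _; simp [cr1, A4b_apply]
  · change cr2 _ _ = _; simp [cr2, A4b_apply]
  · change cr3 _ _ = _; simp [cr3, A4b_apply]
  · change cr4 _ _ = _; simp [cr4, A4b_apply]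
  · change cr5 _ _ = _; simp [cr5, A4b_apply]
  · change cr6 _ _ = _; simp [cr6, A4b_apply]

lemma A4_cross13 : crossF (A4b 1) (A4b 3) = A4b 5 := by
  ext i
  fin_cases i
  · change cr0 _ _ = _; simp [cr0, A4b_apply]
  · change cr1 _ _ = _; simp [cr1, A4b_apply]
  · change cr2 _ _ = _; simp [cr2, A4b_apply]
  · change cr3 _ _ = _; simp [cr3, A4b_apply]
  · change cr4 _ _ = _; simp [cr4, A4b_apply]
  · change cr5 _ _ = _; simp [cr5, A4b_apply]
  · change cr6 _ _ = _; simp [cr6, A4b_apply]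

lemma A4_cross23 : crossF (A4b 2) (A4b 3) = A4b 6 := by
  ext i
  fin_cases i
  · change cr0 _ _ = _; simp [cr0, A4b_apply]
  · change cr1 _ _ = _; simp [cr1, A4b_apply]
  · change cr2 _ _ = _; simp [cr2, A4b_apply]
  · change cr3 _ _ = _; simp [cr3, A4b_apply]
  · change cr4 _ _ = _; simp [cr4, A4b_apply]
  · change cr5 _ _ = _; simp [cr5, A4b_apply]
  · change cr6 _ _ = _; simp [cr6, A4b_apply]

lemma A4_Lq_apply (q : EuclideanSpace ℝ (Fin 4)) (i j : Fin 7) : Lq q (A4b i) j = LqM q j i := by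
  rw [Lq, toC_apply]
  fin_cases i <;> simp [A4b_apply]

theorem Lq_e0 (q : EuclideanSpace ℝ (Fin 4)) : Lq q e0 = e0 := by
  rw [A4_e0]
  ext j
  rw [A4_Lq_apply]
  fin_cases j
  · exact (LqM_e00 q).trans (A4b_same 0).symm
  · exact (LqM_e10 q).trans (A4b_ne (by decide)).symm
  · exact (LqM_e20 q).trans (A4b_ne (by decide)).symm
  · exact (LqM_e30 q).trans (A4b_ne (by decide)).symm
  · exact (LqM_e40 q).trans (A4b_ne (by decide)).symm
  · exact (LqM_e50 q).trans (A4b_ne (by decide)).symm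
  · exact (LqM_e60 q).trans (A4b_ne (by decide)).symm

theorem Lq_e1 (q : EuclideanSpace ℝ (Fin 4)) : Lq q e1 = e1 := by
  rw [A4_e1]
  ext j
  rw [A4_Lq_apply]
  fin_cases j
  · exact (LqM_e01 q).trans (A4b_ne (by decide)).symm
  · exact (LqM_e11 q).trans (A4b_same 1).symm
  · exact (LqM_e21 q).trans (A4b_ne (by decide)).symm
  · exact (LqM_e31 q).trans (A4b_ne (by decide)).symm
  · exact (LqM_e41 q).trans (A4b_ne (by decide)).symm
  · exact (LqM_e51 q).trans (A4b_ne (by decide)).symm
  · exact (LqM_e61 q).trans (A4b_ne (by decide)).symm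

theorem gg_stab {g : E7 →L[ℝ] E7} (hg : g ∈ GG) (h0 : g e0 = e0) (h1 : g e1 = e1) :
    ∃ q : EuclideanSpace ℝ (Fin 4), ‖q‖ = 1 ∧ g = Lq q := by
  obtain ⟨hin, hcr⟩ := hg
  rw [A4_e0] at h0
  rw [A4_e1] at h1
  have h2 : g (A4b 2) = A4b 2 := by
    rw [← A4_cross01, hcr, h0, h1]
  set w : E7 := g (A4b 3) with hw
  have h4 : g (A4b 4) = crossF (A4b 0) w := by
    rw [← A4_cross03, hcr, h0]
  have h5 : g (A4b 5) = crossF (A4b 1) w := by
    rw [← A4_cross13, hcr, h1]
  have h6 : g (A4b 6) = crossF (A4b 2) w := by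
    rw [← A4_cross23, hcr, h2]
  have w0 : w 0 = 0 := by
    have := hin (A4b 3) (A4b 0)
    rw [h0, A4_inner, A4_inner] at this
    rw [hw, this]
    exact A4b_ne (by decide)
  have w1 : w 1 = 0 := by
    have := hin (A4b 3) (A4b 1)
    rw [h1, A4_inner, A4_inner] at this
    rw [hw, this]
    exact A4b_ne (by decide)
  have w2 : w 2 = 0 := by
    have := hin (A4b 3) (A4b 2)
    rw [h2, A4_inner, A4_inner] at this
    rw [hw, this]
    exact A4b_ne (by decide)
  have wn : w 3 * w 3 + w 4 * w 4 + w 5 * w 5 + w 6 * w 6 = 1 := by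
    have := hin (A4b 3) (A4b 3)
    rw [A4_inner, A4b_same, ← hw, inner7, w0, w1, w2] at this
    linarith
  let q : EuclideanSpace ℝ (Fin 4) := !₂[w 3, w 4, w 5, w 6]
  have q0 : q 0 = w 3 := rfl
  have q1 : q 1 = w 4 := rfl
  have q2 : q 2 = w 5 := rfl
  have q3 : q 3 = w 6 := rfl
  refine ⟨q, ?_, ?_⟩
  · have e : ‖q‖ ^ 2 = 1 := by
      rw [← real_inner_self_eq_norm_sq, inner4, q0, q1, q2, q3]
      linarith
    have hn := norm_nonneg q
    nlinarith
  · have key : ∀ i : Fin 7, g (A4b i) = Lq q (A4b i) := by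
      intro i
      fin_cases i
      · change g (A4b 0) = Lq q (A4b 0)
        rw [h0]
        exact (Lq_e0 q).symm
      · change g (A4b 1) = Lq q (A4b 1)
        rw [h1]
        exact (Lq_e1 q).symm
      · change g (A4b 2) = Lq q (A4b 2)
        rw [h2]
        ext j
        rw [A4_Lq_apply]
        fin_cases j
        · exact (A4b_ne (by decide)).trans (LqM_e02 q).symm
        · exact (A4b_ne (by decide)).trans (LqM_e12 q).symm
        · exact (A4b_same 2).trans (LqM_e22 q).symm
        · exact (A4b_ne (by decide)).trans (LqM_e32 q).symm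
        · exact (A4b_ne (by decide)).trans (LqM_e42 q).symm
        · exact (A4b_ne (by decide)).trans (LqM_e52 q).symm
        · exact (A4b_ne (by decide)).trans (LqM_e62 q).symm
      · change g (A4b 3) = Lq q (A4b 3)
        rw [← hw]
        ext j
        rw [A4_Lq_apply]
        fin_cases j
        · exact w0.trans (LqM_e03 q).symm
        · exact w1.trans (LqM_e13 q).symm
        · exact w2.trans (LqM_e23 q).symm
        · exact (LqM_e33 q).symm
        · exact (LqM_e43 q).symm
        · exact (LqM_e53 q).symm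
        · exact (LqM_e63 q).symm
      · change g (A4b 4) = Lq q (A4b 4)
        rw [h4]
        ext j
        rw [A4_Lq_apply]
        fin_cases j
        · change cr0 _ _ = LqM q 0 4
          rw [LqM_e04]; simp [cr0, A4b_apply, w0, w1, w2]
        · change cr1 _ _ = LqM q 1 4
          rw [LqM_e14]; simp [cr1, A4b_apply, w0, w1, w2]
        · change cr2 _ _ = LqM q 2 4
          rw [LqM_e24]; simp [cr2, A4b_apply, w0, w1, w2]
        · change cr3 _ _ = LqM q 3 4
          rw [LqM_e34, q1]; simp [cr3, A4b_apply, w0, w1, w2]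
        · change cr4 _ _ = LqM q 4 4
          rw [LqM_e44, q0]; simp [cr4, A4b_apply, w0, w1, w2]
        · change cr5 _ _ = LqM q 5 4
          rw [LqM_e54, q3]; simp [cr5, A4b_apply, w0, w1, w2]
        · change cr6 _ _ = LqM q 6 4
          rw [LqM_e64, q2]; simp [cr6, A4b_apply, w0, w1, w2]
      · change g (A4b 5) = Lq q (A4b 5)
        rw [h5]
        ext j
        rw [A4_Lq_apply]
        fin_cases j
        · change cr0 _ _ = LqM q 0 5
          rw [LqM_e05]; simp [cr0, A4b_apply, w0, w1, w2]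
        · change cr1 _ _ = LqM q 1 5
          rw [LqM_e15]; simp [cr1, A4b_apply, w0, w1, w2]
        · change cr2 _ _ = LqM q 2 5
          rw [LqM_e25]; simp [cr2, A4b_apply, w0, w1, w2]
        · change cr3 _ _ = LqM q 3 5
          rw [LqM_e35, q2]; simp [cr3, A4b_apply, w0, w1, w2]
        · change cr4 _ _ = LqM q 4 5
          rw [LqM_e45, q3]; simp [cr4, A4b_apply, w0, w1, w2]
        · change cr5 _ _ = LqM q 5 5
          rw [LqM_e55, q0]; simp [cr5, A4b_apply, w0, w1, w2]
        · change cr6 _ _ = LqM q 6 5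
          rw [LqM_e65, q1]; simp [cr6, A4b_apply, w0, w1, w2]
      · change g (A4b 6) = Lq q (A4b 6)
        rw [h6]
        ext j
        rw [A4_Lq_apply]
        fin_cases j
        · change cr0 _ _ = LqM q 0 6
          rw [LqM_e06]; simp [cr0, A4b_apply, w0, w1, w2]
        · change cr1 _ _ = LqM q 1 6
          rw [LqM_e16]; simp [cr1, A4b_apply, w0, w1, w2]
        · change cr2 _ _ = LqM q 2 6
          rw [LqM_e26]; simp [cr2, A4b_apply, w0, w1, w2]
        · change cr3 _ _ = LqM q 3 6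
          rw [LqM_e36, q3]; simp [cr3, A4b_apply, w0, w1, w2]
        · change cr4 _ _ = LqM q 4 6
          rw [LqM_e46, q2]; simp [cr4, A4b_apply, w0, w1, w2]
        · change cr5 _ _ = LqM q 5 6
          rw [LqM_e56, q1]; simp [cr5, A4b_apply, w0, w1, w2]
        · change cr6 _ _ = LqM q 6 6
          rw [LqM_e66, q0]; simp [cr6, A4b_apply, w0, w1, w2]
    have h : (g : E7 →ₗ[ℝ] E7) = (Lq q : E7 →ₗ[ℝ] E7) := by
      refine (EuclideanSpace.basisFun (Fin 7) ℝ).toBasis.ext fun i => ?_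
      have := key i
      simpa [A4b] using this
    ext1 u
    exact congrArg (fun f : E7 →ₗ[ℝ] E7 => f u) h

end G2G
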