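import Pool.Agent.G2G.Defs

/-! MODULE A5 (diff 1-2): the representation on pairs.

`rhoG` is linear, so `fderiv ℝ rhoG 1 = rhoG`.  `rhoG (iotaL x) (e₀, e₁) = (iotaL x e₀, iotaL x e₁)` are the first two
columns of `iota x` (`iotaL_eq`, `toC_apply`, `iota_e00 …`); `hatL A e₀ = hatL A e₁ = 0`.
* `c_iota`: `cF (iotaL x e₀, iotaL x e₁) = x` (`k ≠ 0`: `k_pos`).
* `tau_c`: if `w.1 0 = 0`, `w.2 1 = 0`, `w.2 0 = - w.1 1` then `(iotaL (cF w) e₀, iotaL (cF w) e₁) = w`. -/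

namespace G2G

open HFinG HG G2F
open scoped ContDiff RealInnerProductSpace

lemma A5_e0 (x : V11) (i : Fin 7) : iotaL x e0 i = iota x i 0 := by
  have h0 : e0 0 = 1 := by simp [e0]
  have h1 : e0 1 = 0 := by simp [e0]
  have h2 : e0 2 = 0 := by simp [e0]
  have h3 : e0 3 = 0 := by simp [e0]
  have h4 : e0 4 = 0 := by simp [e0]
  have h5 : e0 5 = 0 := by simp [e0]
  have h6 : e0 6 = 0 := by simp [e0]
  rw [iotaL_eq, toC_apply, h0, h1, h2, h3, h4, h5, h6]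
  ring

lemma A5_e1 (x : V11) (i : Fin 7) : iotaL x e1 i = iota x i 1 := by
  have h0 : e1 0 = 0 := by simp [e1]
  have h1 : e1 1 = 1 := by simp [e1]
  have h2 : e1 2 = 0 := by simp [e1]
  have h3 : e1 3 = 0 := by simp [e1]
  have h4 : e1 4 = 0 := by simp [e1]
  have h5 : e1 5 = 0 := by simp [e1]
  have h6 : e1 6 = 0 := by simp [e1]
  rw [iotaL_eq, toC_apply, h0, h1, h2, h3, h4, h5, h6]
  ring

lemma A5_f (S : E7 →L[ℝ] E7) : fderiv ℝ (rhoG : (E7 →L[ℝ] E7) → (E7 × E7 →L[ℝ] E7 × E7)) 1 S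
    = rhoG S := by
  rw [ContinuousLinearMap.fderiv]

lemma A5_c0 (w : E7 × E7) : cF w 0 = (2 * k)⁻¹ * w.2 2 := rfl
lemma A5_c1 (w : E7 × E7) : cF w 1 = -((2 * k)⁻¹ * w.1 2) := rfl
lemma A5_c2 (w : E7 × E7) : cF w 2 = (2 * k)⁻¹ * w.1 1 := rfl
lemma A5_c3 (w : E7 × E7) : cF w 3 = w.2 3 + w.1 6 / 2 := rfl
lemma A5_c4 (w : E7 × E7) : cF w 4 = w.2 4 - w.1 5 / 2 := rfl
lemma A5_c5 (w : E7 × E7) : cF w 5 = w.2 5 + w.1 4 / 2 := rfl
lemma A5_c6 (w : E7 × E7) : cF w 6 = w.2 6 - w.1 3 / 2 := rfl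
lemma A5_c7 (w : E7 × E7) : cF w 7 = (2 * k)⁻¹ * w.1 5 := rfl
lemma A5_c8 (w : E7 × E7) : cF w 8 = (2 * k)⁻¹ * w.1 6 := rfl
lemma A5_c9 (w : E7 × E7) : cF w 9 = -((2 * k)⁻¹ * w.1 3) := rfl
lemma A5_c10 (w : E7 × E7) : cF w 10 = -((2 * k)⁻¹ * w.1 4) := rfl

theorem c_iota (x : V11) : cG (fderiv ℝ (rhoG : (E7 →L[ℝ] E7) → (E7 × E7 →L[ℝ] E7 × E7)) 1
    (matG.iota x) (e0, e1)) = x := by
  have hk : k ≠ 0 := k_pos.ne'
  rw [A5_f, cG_apply, rhoG_apply]
  change cF (iotaL x e0, iotaL x e1) = x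
  ext i
  fin_cases i
  · change cF (iotaL x e0, iotaL x e1) 0 = x 0
    rw [A5_c0, A5_e1, iota_e21]
    field_simp
  · change cF (iotaL x e0, iotaL x e1) 1 = x 1
    rw [A5_c1, A5_e0, iota_e20]
    field_simp
  · change cF (iotaL x e0, iotaL x e1) 2 = x 2
    rw [A5_c2, A5_e0, iota_e10]
    field_simp
  · change cF (iotaL x e0, iotaL x e1) 3 = x 3
    rw [A5_c3, A5_e1, A5_e0, iota_e31, iota_e60]
    ring
  · change cF (iotaL x e0, iotaL x e1) 4 = x 4
    rw [A5_c4, A5_e1, A5_e0, iota_e41, iota_e50]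
    ring
  · change cF (iotaL x e0, iotaL x e1) 5 = x 5
    rw [A5_c5, A5_e1, A5_e0, iota_e51, iota_e40]
    ring
  · change cF (iotaL x e0, iotaL x e1) 6 = x 6
    rw [A5_c6, A5_e1, A5_e0, iota_e61, iota_e30]
    ring
  · change cF (iotaL x e0, iotaL x e1) 7 = x 7
    rw [A5_c7, A5_e0, iota_e50]
    field_simp
  · change cF (iotaL x e0, iotaL x e1) 8 = x 8
    rw [A5_c8, A5_e0, iota_e60]
    field_simp
  · change cF (iotaL x e0, iotaL x e1) 9 = x 9
    rw [A5_c9, A5_e0, iota_e30]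
    field_simp
  · change cF (iotaL x e0, iotaL x e1) 10 = x 10
    rw [A5_c10, A5_e0, iota_e40]
    field_simp

theorem hat_w0 (A : E3) : fderiv ℝ (rhoG : (E7 →L[ℝ] E7) → (E7 × E7 →L[ℝ] E7 × E7)) 1
    (matG.hat A) (e0, e1) = 0 := by
  rw [A5_f, rhoG_apply]
  change (hatL A e0, hatL A e1) = 0
  have h0 : e0 0 = 1 := by simp [e0]
  have h1 : e0 1 = 0 := by simp [e0]
  have h2 : e0 2 = 0 := by simp [e0]
  have h3 : e0 3 = 0 := by simp [e0]
  have h4 : e0 4 = 0 := by simp [e0]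
  have h5 : e0 5 = 0 := by simp [e0]
  have h6 : e0 6 = 0 := by simp [e0]
  have g0 : e1 0 = 0 := by simp [e1]
  have g1 : e1 1 = 1 := by simp [e1]
  have g2 : e1 2 = 0 := by simp [e1]
  have g3 : e1 3 = 0 := by simp [e1]
  have g4 : e1 4 = 0 := by simp [e1]
  have g5 : e1 5 = 0 := by simp [e1]
  have g6 : e1 6 = 0 := by simp [e1]
  have a0 : ∀ i, hatL A e0 i = hat A i 0 := by
    intro i
    rw [hatL_eq, toC_apply, h0, h1, h2, h3, h4, h5, h6]
    ring
  have a1 : ∀ i, hatL A e1 i = hat A i 1 := by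
    intro i
    rw [hatL_eq, toC_apply, g0, g1, g2, g3, g4, g5, g6]
    ring
  have b0 : hatL A e0 = 0 := by
    ext i
    rw [a0]
    fin_cases i <;> rfl
  have b1 : hatL A e1 = 0 := by
    ext i
    rw [a1]
    fin_cases i <;> rfl
  rw [b0, b1]
  rfl

/-- The representation model of `V₂(ℝ⁷) = G₂/SU(2)`. -/
noncomputable def repG : RepModel matG (E7 × E7) where
  ρ := rhoG
  smooth := rhoG.contDiff
  one := ContinuousLinearMap.ext fun _ => rfl
  mul := fun _ _ => ContinuousLinearMap.ext fun _ => rfl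
  w0 := (e0, e1)
  c := cG
  c_iota := c_iota
  hat_w0 := hat_w0

theorem tau_eq (x : V11) : repG.tau x = (iotaL x e0, iotaL x e1) := by
  rw [RepModel.tau_apply]
  change fderiv ℝ (rhoG : (E7 →L[ℝ] E7) → (E7 × E7 →L[ℝ] E7 × E7)) 1 (iotaL x) (e0, e1) = _
  rw [A5_f, rhoG_apply]

theorem tau_c {w : E7 × E7} (h0 : w.1 0 = 0) (h1 : w.2 1 = 0) (h2 : w.2 0 = -w.1 1) :
    repG.tau (cG w) = w := by
  have hk : k ≠ 0 := k_pos.ne'
  rw [tau_eq, cG_apply]
  refine Prod.ext ?_ ?_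
  · change iotaL (cF w) e0 = w.1
    ext i
    rw [A5_e0]
    fin_cases i
    · change iota (cF w) 0 0 = w.1 0
      rw [iota_e00, h0]
    · change iota (cF w) 1 0 = w.1 1
      rw [iota_e10, A5_c2]
      field_simp
    · change iota (cF w) 2 0 = w.1 2
      rw [iota_e20, A5_c1]
      field_simp
    · change iota (cF w) 3 0 = w.1 3
      rw [iota_e30, A5_c9]
      field_simp
    · change iota (cF w) 4 0 = w.1 4
      rw [iota_e40, A5_c10]
      field_simp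
    · change iota (cF w) 5 0 = w.1 5
      rw [iota_e50, A5_c7]
      field_simp
    · change iota (cF w) 6 0 = w.1 6
      rw [iota_e60, A5_c8]
      field_simp
  · change iotaL (cF w) e1 = w.2
    ext i
    rw [A5_e1]
    fin_cases i
    · change iota (cF w) 0 1 = w.2 0
      rw [iota_e01, A5_c2, h2]
      field_simp
    · change iota (cF w) 1 1 = w.2 1
      rw [iota_e11, h1]
    · change iota (cF w) 2 1 = w.2 2
      rw [iota_e21, A5_c0]
      field_simp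
    · change iota (cF w) 3 1 = w.2 3
      rw [iota_e31, A5_c3, A5_c8]
      field_simp
      ring
    · change iota (cF w) 4 1 = w.2 4
      rw [iota_e41, A5_c4, A5_c7]
      field_simp
      ring
    · change iota (cF w) 5 1 = w.2 5
      rw [iota_e51, A5_c5, A5_c10]
      field_simp
      ring
    · change iota (cF w) 6 1 = w.2 6
      rw [iota_e61, A5_c6, A5_c9]
      field_simp
      ring

end G2G
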