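import Pool.Agent.G2G.A3
import Pool.Agent.G2G.A4
import Pool.Agent.G2G.A5

/-! MODULE A6 (diff 2): `V₂(ℝ⁷)` as an orbit. -/

namespace G2G

open HFinG HG G2F
open scoped ContDiff RealInnerProductSpace

lemma A6_norm_e0 : ‖(e0 : E7)‖ = 1 := by
  simp [e0]

lemma A6_norm_e1 : ‖(e1 : E7)‖ = 1 := by
  simp [e1]

lemma A6_inner_e0_e1 : ⟪(e0 : E7), e1⟫ = 0 := by
  rw [inner7]
  simp [e0, e1]

lemma A6_inner_e0 (u : E7) : ⟪(e0 : E7), u⟫ = u 0 := by
  rw [inner7]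
  simp [e0]

lemma A6_inner_e1 (u : E7) : ⟪(e1 : E7), u⟫ = u 1 := by
  rw [inner7]
  simp [e1]

lemma A6_norm {g : E7 →L[ℝ] E7} (hg : g ∈ GG) (u : E7) : ‖g u‖ = ‖u‖ := by
  have h := hg.1 u u
  rw [real_inner_self_eq_norm_sq, real_inner_self_eq_norm_sq] at h
  exact (sq_eq_sq₀ (norm_nonneg _) (norm_nonneg _)).1 h

/-- the equations of the Stiefel manifold -/
noncomputable def A6Phi (z : E7 × E7) : Fin 3 → ℝ :=
  ![⟪z.1, z.1⟫ - 1, ⟪z.2, z.2⟫ - 1, ⟪z.1, z.2⟫]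

lemma A6Phi_smooth : ContDiff ℝ ∞ A6Phi := by
  rw [contDiff_pi]
  intro i
  fin_cases i
  · change ContDiff ℝ ∞ fun z : E7 × E7 => ⟪z.1, z.1⟫ - 1
    exact (contDiff_fst.inner ℝ contDiff_fst).sub contDiff_const
  · change ContDiff ℝ ∞ fun z : E7 × E7 => ⟪z.2, z.2⟫ - 1
    exact (contDiff_snd.inner ℝ contDiff_snd).sub contDiff_const
  · change ContDiff ℝ ∞ fun z : E7 × E7 => ⟪z.1, z.2⟫
    exact contDiff_fst.inner ℝ contDiff_snd

lemma A6_inner_deriv (A B : E7 × E7 →L[ℝ] E7) (z : E7 × E7) :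
    HasFDerivAt (fun z => ⟪A z, B z⟫) ((fderivInnerCLM ℝ (A z, B z)).comp (A.prod B)) z :=
  A.hasFDerivAt.inner ℝ B.hasFDerivAt

lemma A6Phi_deriv (z w : E7 × E7) : fderiv ℝ A6Phi z w =
    ![⟪z.1, w.1⟫ + ⟪w.1, z.1⟫, ⟪z.2, w.2⟫ + ⟪w.2, z.2⟫, ⟪z.1, w.2⟫ + ⟪w.1, z.2⟫] := by
  let F : E7 × E7 →L[ℝ] E7 := ContinuousLinearMap.fst ℝ E7 E7
  let S : E7 × E7 →L[ℝ] E7 := ContinuousLinearMap.snd ℝ E7 E7
  have h0 : HasFDerivAt (fun z : E7 × E7 => A6Phi z 0)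
      ((fderivInnerCLM ℝ (F z, F z)).comp (F.prod F)) z := by
    change HasFDerivAt (fun z : E7 × E7 => ⟪F z, F z⟫ - 1) _ z
    exact (A6_inner_deriv F F z).sub_const 1
  have h1 : HasFDerivAt (fun z : E7 × E7 => A6Phi z 1)
      ((fderivInnerCLM ℝ (S z, S z)).comp (S.prod S)) z := by
    change HasFDerivAt (fun z : E7 × E7 => ⟪S z, S z⟫ - 1) _ z
    exact (A6_inner_deriv S S z).sub_const 1
  have h2 : HasFDerivAt (fun z : E7 × E7 => A6Phi z 2)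
      ((fderivInnerCLM ℝ (F z, S z)).comp (F.prod S)) z := by
    change HasFDerivAt (fun z : E7 × E7 => ⟪F z, S z⟫) _ z
    exact A6_inner_deriv F S z
  have hd : DifferentiableAt ℝ A6Phi z :=
    A6Phi_smooth.differentiable (by simp) z
  have hp := hasFDerivAt_pi'.1 hd.hasFDerivAt
  have key : ∀ i, fderiv ℝ A6Phi z w i = fderiv ℝ (fun z => A6Phi z i) z w := by
    intro i
    have := (hp i).fderiv
    rw [this]
    rfl
  funext i
  rw [key i]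
  fin_cases i
  · change fderiv ℝ (fun z => A6Phi z 0) z w = _
    rw [h0.fderiv]
    change fderivInnerCLM ℝ (z.1, z.1) (w.1, w.1) = _
    rw [fderivInnerCLM_apply]
    rfl
  · change fderiv ℝ (fun z => A6Phi z 1) z w = _
    rw [h1.fderiv]
    change fderivInnerCLM ℝ (z.2, z.2) (w.2, w.2) = _
    rw [fderivInnerCLM_apply]
    rfl
  · change fderiv ℝ (fun z => A6Phi z 2) z w = _
    rw [h2.fderiv]
    change fderivInnerCLM ℝ (z.1, z.2) (w.1, w.2) = _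
    rw [fderivInnerCLM_apply]
    rfl

theorem isOrbitG : IsOrbit repG GG (Stiefel 7) := by
  refine ⟨gg_one, fun g hg g' hg' => gg_mul hg hg', fun g hg => gg_inv hg, sec_mem, ?_, ?_⟩
  · intro z
    constructor
    · rintro ⟨hz1, hz2, hz3⟩
      obtain ⟨g, hg, h0, h1⟩ := gg_trans hz1 hz2 hz3
      refine ⟨g, hg, ?_⟩
      change (g e0, g e1) = z
      rw [h0, h1]
    · rintro ⟨g, hg, rfl⟩
      change (g e0, g e1) ∈ Stiefel 7
      refine ⟨?_, ?_, ?_⟩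
      · change ‖g e0‖ = 1
        rw [A6_norm hg, A6_norm_e0]
      · change ‖g e1‖ = 1
        rw [A6_norm hg, A6_norm_e1]
      · change ⟪g e0, g e1⟫ = 0
        rw [hg.1, A6_inner_e0_e1]
  · refine ⟨3, A6Phi, A6Phi_smooth, ?_, ?_⟩
    · rintro z ⟨hz1, hz2, hz3⟩
      have h1 : ⟪z.1, z.1⟫ = (1 : ℝ) := by
        rw [real_inner_self_eq_norm_sq, hz1]; norm_num
      have h2 : ⟪z.2, z.2⟫ = (1 : ℝ) := by
        rw [real_inner_self_eq_norm_sq, hz2]; norm_num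
      funext i
      fin_cases i
      · change ⟪z.1, z.1⟫ - 1 = (0 : ℝ)
        rw [h1]; norm_num
      · change ⟪z.2, z.2⟫ - 1 = (0 : ℝ)
        rw [h2]; norm_num
      · exact hz3
    · intro w hw
      change fderiv ℝ A6Phi (e0, e1) w = 0 at hw
      rw [A6Phi_deriv] at hw
      have c0 : ⟪(e0 : E7), w.1⟫ + ⟪w.1, (e0 : E7)⟫ = 0 := congrFun hw 0
      have c1 : ⟪(e1 : E7), w.2⟫ + ⟪w.2, (e1 : E7)⟫ = 0 := congrFun hw 1
      have c2 : ⟪(e0 : E7), w.2⟫ + ⟪w.1, (e1 : E7)⟫ = 0 := congrFun hw 2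
      rw [real_inner_comm (e0 : E7) w.1, A6_inner_e0] at c0
      rw [real_inner_comm (e1 : E7) w.2, A6_inner_e1] at c1
      rw [real_inner_comm (e1 : E7) w.1, A6_inner_e0, A6_inner_e1] at c2
      exact ⟨cG w, tau_c (by linarith) (by linarith) (by linarith)⟩

theorem iso_inv {Fm : V11 → ℝ}
    (h : ∀ (q : EuclideanSpace ℝ (Fin 4)) (hq : ‖q‖ = 1) (x : V11), Fm (rotV q hq x) = Fm x)
    {g : E7 →L[ℝ] E7} (hg : g ∈ GG) (hw : repG.ρ g repG.w0 = repG.w0) (x : V11) :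
    Fm (repG.c (repG.ρ g (repG.tau x))) = Fm x := by
  have hw' : (g e0, g e1) = ((e0, e1) : E7 × E7) := hw
  have h0 : g e0 = e0 := congrArg Prod.fst hw'
  have h1 : g e1 = e1 := congrArg Prod.snd hw'
  obtain ⟨q, hq, rfl⟩ := gg_stab hg h0 h1
  have e : repG.ρ (Lq q) (repG.tau x) = repG.tau (rotF q x) := by
    rw [tau_eq, tau_eq]
    change (Lq q (iotaL x e0), Lq q (iotaL x e1)) = _
    have hc := Lq_iota (q_sq hq) x
    have h2 : Lq q (iotaL x e0) = iotaL (rotF q x) e0 := by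
      have := congrArg (fun f : E7 →L[ℝ] E7 => f e0) hc
      change Lq q (iotaL x e0) = iotaL (rotF q x) (Lq q e0) at this
      rw [this, Lq_e0]
    have h3 : Lq q (iotaL x e1) = iotaL (rotF q x) e1 := by
      have := congrArg (fun f : E7 →L[ℝ] E7 => f e1) hc
      change Lq q (iotaL x e1) = iotaL (rotF q x) (Lq q e1) at this
      rw [this, Lq_e1]
    rw [h2, h3]
  have e2 : repG.c (repG.tau (rotF q x)) = rotF q x := repG.c_iota _
  rw [e, e2]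
  exact h q hq x

end G2G
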