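import Pool.Agent.G2F.Cross
import Pool.Agent.HG.D2
import Pool.Agent.HX.Space

/-! # The geometry of `V₂(ℝ⁷) = G₂/SU(2)`: definitions

`E7 = ℝ⁷ = Im 𝕆` with the cross product `crossF` (basis `i, j, k, ℓ, iℓ, jℓ, kℓ` numbered `0,…,6`). -/

namespace G2G

open HFinG HG G2F
open scoped ContDiff RealInnerProductSpace

/-- The compact group `G₂`: the linear maps of `ℝ⁷` which preserve the inner product and the cross
product. -/
def GG : Set (E7 →L[ℝ] E7) :=
  {g | (∀ u v, ⟪g u, g v⟫ = ⟪u, v⟫) ∧ ∀ u v, g (crossF u v) = crossF (g u) (g v)}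

/-- The diagonal action on pairs of vectors. -/
def pairF (g : E7 →L[ℝ] E7) (z : E7 × E7) : E7 × E7 := (g z.1, g z.2)

/-- The matrix model of `𝔤₂`. -/
noncomputable def matG : MatModel (E7 →L[ℝ] E7) V11 E3 where
  D := g2
  hh := hh
  iota := iotaL
  hat := hatL
  comm_iota := comm_iota
  comm_hat := comm_hat
  comm_hh := comm_hh
  inj := inj_g2

/-- `e₀ = i` -/
noncomputable def e0 : E7 := EuclideanSpace.single 0 1
/-- `e₁ = j` -/
noncomputable def e1 : E7 := EuclideanSpace.single 1 1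

/-- The diagonal representation on `ℝ⁷ × ℝ⁷`, continuous linear in the matrix. -/
noncomputable def rhoG : (E7 →L[ℝ] E7) →L[ℝ] (E7 × E7 →L[ℝ] E7 × E7) :=
  LinearMap.toContinuousLinearMap
    { toFun := fun S => S.prodMap S
      map_add' := by intro S T; rfl
      map_smul' := by intro c S; rfl }

lemma rhoG_apply (S : E7 →L[ℝ] E7) (z : E7 × E7) : rhoG S z = (S z.1, S z.2) := rfl

/-- components of the coordinates at the base point -/
noncomputable def cF (w : E7 × E7) : V11 :=
  !₂[(2 * k)⁻¹ * w.2 2, -((2 * k)⁻¹ * w.1 2), (2 * k)⁻¹ * w.1 1,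
    w.2 3 + w.1 6 / 2, w.2 4 - w.1 5 / 2, w.2 5 + w.1 4 / 2, w.2 6 - w.1 3 / 2,
    (2 * k)⁻¹ * w.1 5, (2 * k)⁻¹ * w.1 6, -((2 * k)⁻¹ * w.1 3), -((2 * k)⁻¹ * w.1 4)]

/-- coordinates of a tangent vector at `(e₀, e₁)` -/
noncomputable def cG : E7 × E7 →L[ℝ] V11 :=
  LinearMap.toContinuousLinearMap
    { toFun := cF
      map_add' := by
        intro w w'
        ext i
        fin_cases i <;> simp [cF] <;> ring
      map_smul' := by
        intro c w
        ext i
        fin_cases i <;> simp [cF] <;> ring }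

lemma cG_apply (w : E7 × E7) : cG w = cF w := rfl

end G2G
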