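import Pool.Agent.G2G.A6
import Pool.Agent.G2F.Main

/-! MODULE Final (diff 2): assembly. -/

namespace G2G

open HFinG HG G2F HX Filter
open scoped ContDiff RealInnerProductSpace Topology

theorem Final_pair (g : E7 →L[ℝ] E7) (z : E7 × E7) : pairF g z = repG.ρ g z := rfl

theorem g2_stiefel {V' : Type*} [NormedAddCommGroup V'] [NormedSpace ℝ V'] [FiniteDimensional ℝ V']
    (hV : Module.finrank ℝ V' = 11) :
    ∃ F : E7 × E7 → E7 × E7 → ℝ, IsFinslerOn V' (Stiefel 7) F ∧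
      (∀ g ∈ GG, InvariantUnder V' (Stiefel 7) F (pairF g)) ∧ ReversibleOn V' (Stiefel 7) F ∧
      PosFlagOn V' (Stiefel 7) F ∧
      ∀ z ∈ Stiefel 7, ∃ (U : Set V') (ψ : V' → E7 × E7), IsParam (Stiefel 7) U ψ ∧ z ∈ ψ '' U := by
  obtain ⟨Fm, hF, hev, hpos, hact, hrot⟩ := g2_exists
  obtain ⟨prm, prh, hP⟩ := exists_proj matG
  have hiso : ∀ g ∈ GG, repG.ρ g repG.w0 = repG.w0 → ∀ x,
      Fm (repG.c (repG.ρ g (repG.tau x))) = Fm x := fun g hg hw x => iso_inv hrot hg hw x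
  have hV' : Module.finrank ℝ V' = Module.finrank ℝ V11 := by
    rw [hV]
    exact (finrank_euclideanSpace_fin (𝕜 := ℝ) (n := 11)).symm
  refine ⟨FS repG GG Fm, finsler_of_norm repG hP hV' isOrbitG hF hiso, ?_, ?_,
    posFlag_of_norm repG hP hV' isOrbitG hF hiso hact hpos,
    fun z hz => param_exists repG hP hV' isOrbitG hz⟩
  · intro g hg U ψ hψ v hv y
    obtain ⟨k, hk, φ, hφ, h0, hi, h⟩ := local_param repG hP isOrbitG hV' hψ hv
    have hd : DifferentiableAt ℝ φ v := hφ.differentiableAt (by simp)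
    have e1 : fderiv ℝ ψ v = (fderiv ℝ (repG.psi k) (φ v)).comp (fderiv ℝ φ v) := by
      have e2 : ψ =ᶠ[𝓝 v] (repG.psi k ∘ φ) := h
      rw [e2.fderiv_eq]
      exact fderiv_comp v ((psi_smooth repG k).differentiable (by simp) _) hd
    have e3 : fderiv ℝ ψ v y = repG.ρ k (repG.tau (fderiv ℝ φ v y)) := by
      rw [e1, ContinuousLinearMap.comp_apply, psi_fderiv repG hP, h0, sec_zero, mul_one,
        (frame matG hP).zero_m]
    have e4 : ψ v = repG.ρ k repG.w0 := by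
      rw [h.self_of_nhds, h0, psi_zero]
    rw [e3, e4, Final_pair, Final_pair]
    exact FS_inv repG isOrbitG hiso hg hk _
  · intro U ψ hψ v hv y
    exact FS_neg repG GG hev _ _

end G2G
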