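import Pool.Agent.HX.Space

/-! # `V₂(ℝ⁷)` as a homogeneous space of `G₂`: the definitions used in the statement

`R7 = ℝ⁷` are the imaginary octonions with the basis `i, j, k, ℓ, iℓ, jℓ, kℓ`, numbered `0,…,6`. -/

namespace G2Sp

open HFinG HX
open scoped RealInnerProductSpace

/-- `ℝ⁷` -/
abbrev R7 := EuclideanSpace ℝ (Fin 7)

/-- component 0 of the cross product -/
def c0 (u v : R7) : ℝ :=
  u 1 * v 2 - u 2 * v 1 + u 3 * v 4 - u 4 * v 3 - u 5 * v 6 + u 6 * v 5

/-- component 1 of the cross product -/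
def c1 (u v : R7) : ℝ :=
  u 2 * v 0 - u 0 * v 2 + u 3 * v 5 + u 4 * v 6 - u 5 * v 3 - u 6 * v 4

/-- component 2 of the cross product -/
def c2 (u v : R7) : ℝ :=
  u 0 * v 1 - u 1 * v 0 + u 3 * v 6 - u 4 * v 5 + u 5 * v 4 - u 6 * v 3

/-- component 3 of the cross product -/
def c3 (u v : R7) : ℝ :=
  u 4 * v 0 - u 0 * v 4 - u 1 * v 5 - u 2 * v 6 + u 5 * v 1 + u 6 * v 2

/-- component 4 of the cross product -/
def c4 (u v : R7) : ℝ :=
  u 0 * v 3 - u 1 * v 6 + u 2 * v 5 - u 3 * v 0 - u 5 * v 2 + u 6 * v 1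

/-- component 5 of the cross product -/
def c5 (u v : R7) : ℝ :=
  u 0 * v 6 + u 1 * v 3 - u 2 * v 4 - u 3 * v 1 + u 4 * v 2 - u 6 * v 0

/-- component 6 of the cross product -/
def c6 (u v : R7) : ℝ :=
  u 1 * v 4 - u 0 * v 5 + u 2 * v 3 - u 3 * v 2 - u 4 * v 1 + u 5 * v 0

/-- The cross product of `ℝ⁷`: the imaginary part of the octonion product `u v`. -/
noncomputable def cross (u v : R7) : R7 :=
  !₂[c0 u v, c1 u v, c2 u v, c3 u v, c4 u v, c5 u v, c6 u v]

/-- The compact group `G₂`: the linear maps of `ℝ⁷` which preserve the inner product and the cross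
product. -/
def G2 : Set (R7 →L[ℝ] R7) :=
  {g | (∀ u v, ⟪g u, g v⟫ = ⟪u, v⟫) ∧ ∀ u v, g (cross u v) = cross (g u) (g v)}

/-- The action on pairs of vectors. -/
def pair (g : R7 →L[ℝ] R7) (z : R7 × R7) : R7 × R7 := (g z.1, g z.2)

/-- The pair of the first two basis vectors. -/
noncomputable def base : R7 × R7 := (EuclideanSpace.single 0 1, EuclideanSpace.single 1 1)

/-- `ℝ¹¹`. -/
abbrev R11 := EuclideanSpace ℝ (Fin 11)

/-- `F` is a reversible `G₂`-invariant Finsler metric on `V₂(ℝ⁷)`. -/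
structure IsG2Rev (F : R7 × R7 → R7 × R7 → ℝ) : Prop where
  finsler : IsFinslerOn R11 (Stiefel 7) F
  inv : ∀ g ∈ G2, InvariantUnder R11 (Stiefel 7) F (pair g)
  rev : ReversibleOn R11 (Stiefel 7) F

/-- The `11`-dimensional local parametrizations cover `M`. -/
def Covered11 (M : Set (R7 × R7)) : Prop :=
  ∀ z ∈ M, ∃ (U : Set R11) (ψ : R11 → R7 × R7), IsParam M U ψ ∧ z ∈ ψ '' U

end G2Sp
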