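import Pool.Agent.G2G.Final
import Pool.Agent.G2G.Sp

/-! The statement in short form. -/

namespace G2Sp

open HFinG HG G2F HX G2G
open scoped RealInnerProductSpace

theorem cross_eq (u v : R7) : cross u v = crossF u v := rfl

theorem G2_eq : G2 = GG := rfl

theorem base_eq : base = (e0, e1) := rfl

theorem finrank11 : Module.finrank ℝ R11 = 11 := by
  rw [finrank_euclideanSpace, Fintype.card_fin]

theorem g2_orbit : Stiefel 7 = {z | ∃ g ∈ G2, pair g base = z} := by
  ext z
  exact isOrbitG.orbit z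

theorem g2_covered : Covered11 (Stiefel 7) := by
  obtain ⟨F, -, -, -, -, h⟩ := g2_stiefel (V' := R11) finrank11
  exact h

theorem g2_reversible : ∃ F, IsG2Rev F ∧ PosFlagOn R11 (Stiefel 7) F := by
  obtain ⟨F, h1, h2, h3, h4, -⟩ := g2_stiefel (V' := R11) finrank11
  exact ⟨F, ⟨h1, h2, h3⟩, h4⟩

end G2Sp
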